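import Pool.Agent.H59.L.T374d34.N98.Basic
import Pool.Agent.H59.L.S8.W558.Extract

/-!
Adding the divisor of a function to the boundary of a model, chart by chart.
-/

set_option autoImplicit false
set_option linter.unusedVariables false
set_option linter.unusedSimpArgs false
set_option linter.unusedSectionVars false

universe u

open Pool.Agent.W558

namespace Pool.Agent.N98

section units

variable {k K : Type u} [Field k] [Field K] [Algebra k K] {I : Type} [Fintype I]

lemma IsM.mono {A B : Subalgebra k K} (h : A ≤ B) {x : I → K} {g : K} {γ : I → ℤ}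
    (hg : IsM A x g γ) : IsM B x g γ := by
  obtain ⟨w, h0, h1, h2, h3⟩ := hg
  exact ⟨w, h0, h h1, h h2, h3⟩

/-- A component which occurs in a unit is empty. -/
lemma inv_mem_of_prod {A : Subalgebra k K} [Algebra.Smooth k A] {x : I → K} (hS : SNC A x)
    (hx : ∀ i, x i ∈ A) (hx0 : ∀ i, x i ≠ 0) (d : I → ℤ) (h : ∏ i, x i ^ d i ∈ A)
    (h' : (∏ i, x i ^ d i)⁻¹ ∈ A) (i : I) (hi : d i ≠ 0) : (x i)⁻¹ ∈ A := by
  classical
  wlog hpos : 0 < d i generalizing d
  · refine this (fun i => - d i) ?_ ?_ (by simpa using hi) ?_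
    · simp only [zpow_neg, Finset.prod_inv_distrib]
      exact h'
    · simp only [zpow_neg, Finset.prod_inv_distrib, inv_inv]
      exact h
    · change 0 < - d i
      omega
  let y : I → K := fun l => if l = i then 1 else x l
  have hy : ∀ l, y l ∈ A := by
    intro l
    simp only [y]
    split_ifs
    · exact A.one_mem
    · exact hx l
  have hy0 : ∀ l, y l ≠ 0 := by
    intro l
    simp only [y]
    split_ifs
    · exact one_ne_zero
    · exact hx0 l
  have hone : ∀ (κ : Type u) [Field κ] [Algebra k κ] (φ : A →ₐ[k] κ) (h1 : y i ∈ A),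
      φ ⟨y i, h1⟩ ≠ 0 := by
    intro κ _ _ φ h1 h0
    have e : (⟨y i, h1⟩ : A) = 1 := Subtype.ext (if_pos rfl)
    rw [e, map_one] at h0
    exact one_ne_zero h0
  have hyl : ∀ l, l ≠ i → y l = x l := fun l hl => if_neg hl
  have hS' : SNC A (fun o : Option I => o.elim (x i) y) := by
    intro κ _ _ φ o ho hφ
    cases o with
    | none =>
      obtain ⟨D, hD, hD'⟩ := hS κ φ i ho hφ
      refine ⟨D, hD, ?_⟩
      rintro (_ | l) hl hne hφl
      · exact absurd rfl hne
      · by_cases hli : l = i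
        · subst hli
          exact absurd hφl (hone κ φ hl)
        · have e : (⟨y l, hl⟩ : A) = ⟨x l, hx l⟩ := Subtype.ext (hyl l hli)
          change D.D ⟨y l, hl⟩ = 0
          change φ ⟨y l, hl⟩ = 0 at hφl
          rw [e] at hφl ⊢
          exact hD' l (hx l) hli hφl
    | some l0 =>
      by_cases hl0 : l0 = i
      · subst hl0
        exact absurd hφ (hone κ φ ho)
      · have e0 : (⟨y l0, ho⟩ : A) = ⟨x l0, hx l0⟩ := Subtype.ext (hyl l0 hl0)
        change φ ⟨y l0, ho⟩ = 0 at hφ
        rw [e0] at hφ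
        obtain ⟨D, hD, hD'⟩ := hS κ φ l0 (hx l0) hφ
        refine ⟨D, ?_, ?_⟩
        · change D.D ⟨y l0, ho⟩ = 1
          rw [e0]
          exact hD
        · rintro (_ | l) hl hne hφl
          · exact hD' i (hx i) (fun h => hl0 h.symm) hφl
          · by_cases hli : l = i
            · subst hli
              exact absurd hφl (hone κ φ hl)
            · have e : (⟨y l, hl⟩ : A) = ⟨x l, hx l⟩ := Subtype.ext (hyl l hli)
              change D.D ⟨y l, hl⟩ = 0
              change φ ⟨y l, hl⟩ = 0 at hφl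
              rw [e] at hφl ⊢
              exact hD' l (hx l) (fun h => hne (by rw [h])) hφl
  rw [← one_div]
  refine div_mem_of_prod_mul hS' (hx i) hy (hx0 i) hy0 (fun l => - d l) A.one_mem ?_
  have e : (∏ l, y l ^ (- d l)) = x i ^ d i * (∏ l, x l ^ d l)⁻¹ := by
    rw [← Finset.mul_prod_erase Finset.univ (fun l => x l ^ d l) (Finset.mem_univ i),
      ← Finset.mul_prod_erase Finset.univ (fun l => y l ^ (- d l)) (Finset.mem_univ i)]
    have e1 : y i = 1 := if_pos rfl
    have e2 : ∏ l ∈ Finset.univ.erase i, y l ^ (- d l) =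
        (∏ l ∈ Finset.univ.erase i, x l ^ d l)⁻¹ := by
      rw [← Finset.prod_inv_distrib]
      refine Finset.prod_congr rfl fun l hl => ?_
      rw [hyl l (Finset.ne_of_mem_erase hl), zpow_neg]
    rw [e2, e1, one_zpow, one_mul, mul_inv, ← mul_assoc, mul_inv_cancel₀ (zpow_ne_zero _ (hx0 i)),
      one_mul]
  rw [e]
  have e3 : x i ^ d i * (∏ l, x l ^ d l)⁻¹ * (1 / x i) =
      x i ^ (d i - 1) * (∏ l, x l ^ d l)⁻¹ := by
    rw [zpow_sub_one₀ (hx0 i)]
    ring
  rw [e3]
  exact A.mul_mem (zpow_mem_of (hx i) (Or.inl (by omega))) h'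

end units

section overlap

variable {k K : Type u} [Field k] [Field K] [Algebra k K] {R0 R : Subalgebra k K}
    {T I : Type} (M : LM R0 R T I)

/-- The overlap of two charts. -/
noncomputable def OV (t t' : T) : Subalgebra k K := adj (M.A t) (M.H t' / M.H t)⁻¹

lemma le_OV (t t' : T) : M.A t ≤ OV M t t' := le_adj _ _

lemma r_ne (t t' : T) : M.H t' / M.H t ≠ 0 := div_ne_zero (M.H0 _) (M.H0 _)

lemma mem_OV {t t' : T} {f : K} (n : ℕ) (h : (M.H t' / M.H t) ^ n * f ∈ OV M t t') :
    f ∈ OV M t t' := by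
  have e : f = (M.H t' / M.H t)⁻¹ ^ n * ((M.H t' / M.H t) ^ n * f) := by
    rw [← mul_assoc, ← mul_pow, inv_mul_cancel₀ (r_ne M t t'), one_pow, one_mul]
  rw [e]
  exact (OV M t t').mul_mem ((OV M t t').pow_mem (self_mem_adj _ _) n) h

lemma le_OV' (t t' : T) : M.A t' ≤ OV M t t' := by
  intro f hf
  obtain ⟨n, hn⟩ := M.gl t t' f hf
  exact mem_OV M n (le_OV M t t' hn)

lemma exists_of_mem_OV {t t' : T} {f : K} (h : f ∈ OV M t t') :
    ∃ n : ℕ, (M.H t' / M.H t) ^ n * f ∈ M.A t := by
  obtain ⟨n, hn⟩ := (mem_adj_inv (M.rt t t') (r_ne M t t')).1 h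
  exact ⟨n, by rw [mul_comm]; exact hn⟩

lemma u_mem_OV (t t' : T) (i : I) : M.x t' i / M.x t i ∈ OV M t t' := by
  obtain ⟨n, hn⟩ := M.gi t t' i
  exact mem_OV M n (le_OV M t t' hn)

lemma u_inv_mem_OV (t t' : T) (i : I) : M.x t i / M.x t' i ∈ OV M t t' := by
  obtain ⟨n, hn⟩ := M.gi t' t i
  have e : M.x t i / M.x t' i = (M.H t' / M.H t) ^ n *
      ((M.H t / M.H t') ^ n * (M.x t i / M.x t' i)) := by
    rw [← mul_assoc, ← mul_pow]
    have e1 : M.H t' / M.H t * (M.H t / M.H t') = 1 := by
      have := M.H0 t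
      have := M.H0 t'
      field_simp
    rw [e1, one_pow, one_mul]
  rw [e]
  exact (OV M t t').mul_mem ((OV M t t').pow_mem (le_OV M t t' (M.rt t t')) n)
    (le_OV' M t t' hn)

lemma smooth_OV (t t' : T) : Algebra.Smooth k (OV M t t') := by
  have := M.sm t
  exact smooth_adj_inv (M.rt t t') (r_ne M t t')

lemma snc_OV (t t' : T) : SNC (OV M t t') (M.x t) :=
  (M.snc t).loc (M.xA t) (M.rt t t') (r_ne M t t')

/-- Logarithmic derivations of a chart on the overlap. -/
lemma ld_OV {t : T} (t' : T) {D : Derivation k K K} (hD : LDt M t D) :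
    (∀ f ∈ OV M t t', D f ∈ OV M t t') ∧ ∀ i, D (M.x t' i) / M.x t' i ∈ OV M t t' := by
  have h1 : ∀ f ∈ OV M t t', D f ∈ OV M t t' := der_adj_inv (M.rt t t') D hD.1
  refine ⟨h1, fun i => ?_⟩
  have h2 : M.x t' i = (M.x t' i / M.x t i) * M.x t i := by
    rw [div_mul_cancel₀ _ (M.x0 t i)]
  have h3 : D (M.x t' i) / M.x t' i = D (M.x t' i / M.x t i) * (M.x t i / M.x t' i) +
      D (M.x t i) / M.x t i := by
    conv_lhs => rw [h2, Derivation.leibniz]
    simp only [smul_eq_mul]
    have := M.x0 t i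
    have := M.x0 t' i
    field_simp
    ring
  rw [h3]
  exact (OV M t t').add_mem ((OV M t t').mul_mem (h1 _ (u_mem_OV M t t' i)) (u_inv_mem_OV M t t' i))
    (le_OV M t t' (hD.2 i))

variable [Fintype I]

/-- Change of the local equations on the overlap. -/
lemma ism_OV {t t' : T} {g : K} {γ : I → ℤ} (h : IsM (M.A t') (M.x t') g γ) :
    IsM (OV M t t') (M.x t) g γ := by
  obtain ⟨w, h0, h1, h2, h3⟩ := h
  have e : (∏ i, M.x t' i ^ γ i) = (∏ i, (M.x t' i / M.x t i) ^ γ i) * ∏ i, M.x t i ^ γ i := by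
    rw [← Finset.prod_mul_distrib]
    refine Finset.prod_congr rfl fun i _ => ?_
    rw [← mul_zpow, div_mul_cancel₀ _ (M.x0 t i)]
  have hu0 : ∀ i, M.x t' i / M.x t i ≠ 0 := fun i => div_ne_zero (M.x0 _ _) (M.x0 _ _)
  have hu : ∀ i (n : ℤ), (M.x t' i / M.x t i) ^ n ∈ OV M t t' := fun i n =>
    zpow_mem_of (u_mem_OV M t t' i) (Or.inr (by rw [inv_div]; exact u_inv_mem_OV M t t' i))
  refine ⟨w * ∏ i, (M.x t' i / M.x t i) ^ γ i,
    mul_ne_zero h0 (Finset.prod_ne_zero_iff.2 fun i _ => zpow_ne_zero _ (hu0 i)),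
    (OV M t t').mul_mem (le_OV' M t t' h1) ((OV M t t').prod_mem fun i _ => hu i _), ?_, ?_⟩
  · rw [mul_inv, ← Finset.prod_inv_distrib]
    refine (OV M t t').mul_mem (le_OV' M t t' h2) ((OV M t t').prod_mem fun i _ => ?_)
    rw [← zpow_neg]
    exact hu i _
  · rw [h3, e, mul_assoc]

/-- The exponents are unique, up to the components which are empty on the overlap. -/
lemma inv_mem_OV {t t' : T} {g : K} {γ γ' : I → ℤ} (h : IsM (M.A t) (M.x t) g γ)
    (h' : IsM (M.A t') (M.x t') g γ') (i : I) (hi : γ i ≠ γ' i) : (M.x t i)⁻¹ ∈ OV M t t' := by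
  have := smooth_OV M t t'
  have h1 := (h.mono (le_OV M t t')).mul (M.x0 t) (ism_OV M h').inv
  obtain ⟨w, h0, h2, h3, h4⟩ := h1
  rw [mul_inv_cancel₀ (h.ne (M.x0 t))] at h4
  refine inv_mem_of_prod (snc_OV M t t') (fun i => le_OV M t t' (M.xA t i)) (M.x0 t) (γ + -γ')
    ?_ ?_ i ?_
  · rwa [eq_inv_of_mul_eq_one_right h4.symm]
  · rwa [eq_inv_of_mul_eq_one_right h4.symm, inv_inv]
  · simp only [Pi.add_apply, Pi.neg_apply]
    omega

lemma logD_OV {t t' : T} {g : K} {γ : I → ℤ} (h : IsM (M.A t') (M.x t') g γ)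
    {D : Derivation k K K} (hD : LDt M t D) : D g / g ∈ OV M t t' :=
  (h.mono (le_OV' M t t')).logD (fun i => le_OV' M t t' (M.xA t' i)) (M.x0 t') D
    (ld_OV M t' hD).1 (ld_OV M t' hD).2

end overlap

section relabel

variable {k K : Type u} [Field k] [Field K] [Algebra k K] {R0 R : Subalgebra k K}
    {T I : Type}

/-- Splitting the components of the boundary according to the exponents of a function. -/
theorem exists_relabel [Finite T] [Fintype I] (M : LM R0 R T I) (g : K) (E : T → I → ℤ)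
    (h : ∀ t, IsM (M.A t) (M.x t) g (E t)) :
    ∃ (I' : Type) (_ : Fintype I') (M' : LM R0 R T I'), M'.A = M.A ∧ OvL M M' id ∧ IsB M' g := by
  classical
  have : Fintype T := Fintype.ofFinite T
  let S : Finset ℤ := Finset.univ.image fun p : T × I => E p.1 p.2
  have hS : ∀ t i, E t i ∈ S := fun t i =>
    Finset.mem_image.2 ⟨(t, i), Finset.mem_univ _, rfl⟩
  let x' : T → I × S → K := fun t p => if E t p.1 = p.2 then M.x t p.1 else 1
  have hx1 : ∀ t (p : I × S), E t p.1 = p.2 → x' t p = M.x t p.1 := fun t p hp => if_pos hp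
  have hx2 : ∀ t (p : I × S), E t p.1 ≠ p.2 → x' t p = 1 := fun t p hp => if_neg hp
  have hprod : ∀ t (γ : I × S → ℤ), ∏ p, x' t p ^ γ p = ∏ i, M.x t i ^ γ (i, ⟨E t i, hS t i⟩) := by
    intro t γ
    rw [Fintype.prod_prod_type]
    refine Finset.prod_congr rfl fun i _ => ?_
    rw [Finset.prod_eq_single (⟨E t i, hS t i⟩ : S)]
    · rw [hx1 t (i, ⟨E t i, hS t i⟩) rfl]
    · intro e _ he
      rw [hx2 t (i, e), one_zpow]
      intro h1
      exact he (Subtype.ext h1.symm)
    · intro h
      exact absurd (Finset.mem_univ _) h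
  let M' : LM R0 R T (I × S) :=
    { A := M.A, H := M.H, x := x', sm := M.sm, base := M.base, H0 := M.H0, HR := M.HR,
      rt := M.rt, gl := M.gl, dn := M.dn, cv := M.cv
      xA := by
        intro t p
        by_cases hp : E t p.1 = p.2
        · rw [hx1 t p hp]; exact M.xA t p.1
        · rw [hx2 t p hp]; exact (M.A t).one_mem
      x0 := by
        intro t p
        by_cases hp : E t p.1 = p.2
        · rw [hx1 t p hp]; exact M.x0 t p.1
        · rw [hx2 t p hp]; exact one_ne_zero
      gi := by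
        intro t t' p
        by_cases hp : E t p.1 = p.2
        · by_cases hp' : E t' p.1 = p.2
          · rw [hx1 t p hp, hx1 t' p hp']; exact M.gi t t' p.1
          · rw [hx1 t p hp, hx2 t' p hp']
            apply exists_of_mem_OV M
            rw [one_div]
            exact inv_mem_OV M (h t) (h t') p.1 (fun h1 => hp' (h1 ▸ hp))
        · by_cases hp' : E t' p.1 = p.2
          · rw [hx2 t p hp, hx1 t' p hp', div_one]
            exact M.gl t t' _ (M.xA t' p.1)
          · rw [hx2 t p hp, hx2 t' p hp']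
            exact ⟨0, by rw [pow_zero, one_mul, div_one]; exact (M.A t).one_mem⟩
      snc := by
        intro t κ _ _ φ p hp hφ
        have hone : ∀ (q : I × S) (hq : x' t q ∈ M.A t), φ ⟨x' t q, hq⟩ = 0 → E t q.1 = q.2 := by
          intro q hq h0
          by_contra hne
          have e : (⟨x' t q, hq⟩ : M.A t) = 1 := Subtype.ext (hx2 t q hne)
          rw [e, map_one] at h0
          exact one_ne_zero h0
        have h1 := hone p hp hφ
        have e : (⟨x' t p, hp⟩ : M.A t) = ⟨M.x t p.1, M.xA t p.1⟩ := Subtype.ext (hx1 t p h1)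
        rw [e] at hφ
        obtain ⟨D, hD, hD'⟩ := M.snc t κ φ p.1 (M.xA t p.1) hφ
        refine ⟨D, by rw [e]; exact hD, ?_⟩
        intro q hq hne hφq
        have h2 := hone q hq hφq
        have e' : (⟨x' t q, hq⟩ : M.A t) = ⟨M.x t q.1, M.xA t q.1⟩ := Subtype.ext (hx1 t q h2)
        rw [e'] at hφq ⊢
        refine hD' q.1 (M.xA t q.1) ?_ hφq
        intro h3
        apply hne
        refine Prod.ext h3 (Subtype.ext ?_)
        rw [← h2, ← h1, h3] }
  have hMx : ∀ t p, M'.x t p = x' t p := fun _ _ => rfl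
  refine ⟨I × S, inferInstance, M', rfl, ⟨fun t => le_rfl, ?_, ?_⟩, ?_⟩
  · rintro f ⟨γ, hf⟩
    refine ⟨fun p => γ p.1, fun t => ?_⟩
    obtain ⟨w, h0, h1, h2, h3⟩ := hf t
    exact ⟨w, h0, h1, h2, by rw [h3]; congr 1; exact (hprod t (fun p => γ p.1)).symm⟩
  · rintro t D ⟨hD, hD'⟩
    refine ⟨hD, fun p => ?_⟩
    change D (x' t p) / x' t p ∈ M.A t
    by_cases hp : E t p.1 = p.2
    · rw [hx1 t p hp]; exact hD' p.1
    · rw [hx2 t p hp, Derivation.map_one_eq_zero, zero_div]; exact (M.A t).zero_mem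
  · refine ⟨fun p => p.2, fun t => ?_⟩
    obtain ⟨w, h0, h1, h2, h3⟩ := h t
    exact ⟨w, h0, h1, h2, by rw [h3]; congr 1; exact (hprod t (fun p => p.2)).symm⟩

end relabel

section add

variable {k K : Type u} [Field k] [Field K] [Algebra k K] {R0 R : Subalgebra k K}
    {T I : Type}

/-- Adding the divisor of a function, which is locally a boundary function or a boundary function
times a coordinate. -/
theorem exists_addc [Finite T] [Fintype I] (M : LM R0 R T I) (G : K) (hG : G ≠ 0) (N : ℕ)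
    (hN : (N : k) ≠ 0) (ty : T → Prop) (E : T → I → ℤ) (μ : T → K)
    (θ : T → Derivation k K K) (hθ : ∀ t, LDt M t (θ t))
    (hA : ∀ t, ¬ ty t → IsM (M.A t) (M.x t) (G ^ N) (E t))
    (hB : ∀ t, ty t → IsM (M.A t) (M.x t) (μ t ^ N) (E t) ∧ G / μ t ∈ M.A t ∧ θ t G = μ t) :
    ∃ (I' : Type) (_ : Fintype I') (M' : LM R0 R T I'), M'.A = M.A ∧
      (∀ g, IsB M g → IsB M' g) ∧ IsB M' (G ^ N) ∧ (∀ t, ¬ ty t → LDt M' t (θ t)) ∧
      ∀ t, ty t → LDt M' t ((G / μ t) • θ t) := by
  classical
  have hN0 : N ≠ 0 := by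
    rintro rfl
    exact hN Nat.cast_zero
  have hμ0 : ∀ t, ty t → μ t ≠ 0 := by
    intro t ht h0
    apply (hB t ht).1.ne (M.x0 t)
    rw [h0, zero_pow hN0]
  -- the logarithmic derivative of `μ t'`
  have hμ : ∀ t t', ty t' → θ t (μ t') / μ t' ∈ OV M t t' := by
    intro t t' ht'
    have h1 := logD_OV M (hB t' ht').1 (hθ t)
    rw [logD_pow _ (hμ0 t' ht')] at h1
    exact mem_of_natCast_mul hN h1
  have hμ' : ∀ t, ty t → θ t (μ t) / μ t ∈ M.A t := by
    intro t ht
    have h1 := (hB t ht).1.logD (M.xA t) (M.x0 t) (θ t) (hθ t).1 (hθ t).2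
    rw [logD_pow _ (hμ0 t ht)] at h1
    exact mem_of_natCast_mul hN h1
  let h : T → K := fun t => if ty t then G / μ t else 1
  have h1 : ∀ t, ty t → h t = G / μ t := fun t ht => if_pos ht
  have h2 : ∀ t, ¬ ty t → h t = 1 := fun t ht => if_neg ht
  have hmem : ∀ t, h t ∈ M.A t := by
    intro t
    by_cases ht : ty t
    · rw [h1 t ht]; exact (hB t ht).2.1
    · rw [h2 t ht]; exact (M.A t).one_mem
  have hne : ∀ t, h t ≠ 0 := by
    intro t
    by_cases ht : ty t
    · rw [h1 t ht]; exact div_ne_zero hG (hμ0 t ht)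
    · rw [h2 t ht]; exact one_ne_zero
  -- the gluing
  have hgi : ∀ t t', h t' / h t ∈ OV M t t' := by
    intro t t'
    by_cases ht : ty t
    · have e1 : (1 : K) / h t = θ t G / G := by
        rw [h1 t ht, (hB t ht).2.2, one_div_div]
      by_cases ht' : ty t'
      · have e2 : h t' / h t = θ t (h t') + h t' * (θ t (μ t') / μ t') := by
          have e3 : h t' / h t = h t' * (1 / h t) := by rw [mul_one_div]
          have e4 : G = h t' * μ t' := by
            rw [h1 t' ht', div_mul_cancel₀ _ (hμ0 t' ht')]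
          rw [e3, e1]
          conv_lhs => rw [e4, Derivation.leibniz]
          simp only [smul_eq_mul]
          have := hne t'
          have := hμ0 t' ht'
          field_simp
          ring
        rw [e2]
        have h3 : h t' ∈ OV M t t' := le_OV' M t t' (hmem t')
        exact (OV M t t').add_mem ((ld_OV M t' (hθ t)).1 _ h3)
          ((OV M t t').mul_mem h3 (hμ t t' ht'))
      · rw [h2 t' ht', e1]
        have h3 := logD_OV M (hA t' ht') (hθ t)
        rw [logD_pow _ hG] at h3
        exact mem_of_natCast_mul hN h3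
    · rw [h2 t ht, div_one]
      exact le_OV' M t t' (hmem t')
  let x' : T → Option I → K := fun t o => o.elim (h t) (M.x t)
  let M1 : LM R0 R T (Option I) :=
    { A := M.A, H := M.H, x := x', sm := M.sm, base := M.base, H0 := M.H0, HR := M.HR,
      rt := M.rt, gl := M.gl, dn := M.dn, cv := M.cv
      xA := by
        rintro t (_ | i)
        · exact hmem t
        · exact M.xA t i
      x0 := by
        rintro t (_ | i)
        · exact hne t
        · exact M.x0 t i
      gi := by
        rintro t t' (_ | i)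
        · exact exists_of_mem_OV M (hgi t t')
        · exact M.gi t t' i
      snc := by
        intro t
        refine SNC.add (M.snc t) (hmem t) ?_
        intro κ _ _ φ hφ
        by_cases ht : ty t
        · refine ⟨TV.ofDer (θ t) (hθ t).1 φ, ?_, ?_⟩
          · rw [TV.ofDer_D]
            have e : θ t (h t) = 1 - θ t (μ t) / μ t * h t := by
              rw [h1 t ht, div_eq_mul_inv G, Derivation.leibniz, Derivation.leibniz_inv,
                (hB t ht).2.2]
              simp only [smul_eq_mul]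
              have := hμ0 t ht
              field_simp
              ring
            have e' : (⟨θ t (h t), (hθ t).1 _ (hmem t)⟩ : M.A t) =
                1 - ⟨_, hμ' t ht⟩ * ⟨h t, hmem t⟩ := Subtype.ext e
            rw [e', map_sub, map_mul, hφ, mul_zero, sub_zero, map_one]
            exact one_ne_zero
          · intro l hl hφl
            rw [TV.ofDer_D]
            have e : (⟨θ t (M.x t l), (hθ t).1 _ hl⟩ : M.A t) =
                ⟨_, (hθ t).2 l⟩ * ⟨M.x t l, hl⟩ := by
              apply Subtype.ext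
              change θ t (M.x t l) = θ t (M.x t l) / M.x t l * M.x t l
              rw [div_mul_cancel₀ _ (M.x0 t l)]
            rw [e, map_mul, hφl, mul_zero]
        · exfalso
          have e : (⟨h t, hmem t⟩ : M.A t) = 1 := Subtype.ext (h2 t ht)
          rw [e, map_one] at hφ
          exact one_ne_zero hφ }
  have hM1A : M1.A = M.A := rfl
  have hM1x : ∀ t o, M1.x t o = o.elim (h t) (M.x t) := fun _ _ => rfl
  have hB1 : ∀ g, IsB M g → IsB M1 g := by
    rintro g ⟨γ, hg⟩
    refine ⟨fun o => o.elim 0 γ, fun t => ?_⟩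
    obtain ⟨w, h0, h1, h2, h3⟩ := hg t
    refine ⟨w, h0, h1, h2, ?_⟩
    rw [h3]
    simp only [Fintype.prod_option, hM1x, Option.elim, zpow_zero, one_mul]
  have hE1 : ∀ t, IsM (M1.A t) (M1.x t) (G ^ N) (fun o => o.elim (N : ℤ) (E t)) := by
    intro t
    by_cases ht : ty t
    · obtain ⟨w, h0, h3, h4, h5⟩ := (hB t ht).1
      refine ⟨w, h0, h3, h4, ?_⟩
      simp only [Fintype.prod_option, hM1x, Option.elim]
      rw [h1 t ht, zpow_natCast, div_pow]
      have e := hμ0 t ht
      have e' : μ t ^ N ≠ 0 := pow_ne_zero _ e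
      have e2 : w * (G ^ N / μ t ^ N * ∏ i, M.x t i ^ E t i) =
          G ^ N / μ t ^ N * (w * ∏ i, M.x t i ^ E t i) := by ring
      rw [e2, ← h5, div_mul_cancel₀ _ e']
    · obtain ⟨w, h0, h3, h4, h5⟩ := hA t ht
      refine ⟨w, h0, h3, h4, ?_⟩
      simp only [Fintype.prod_option, hM1x, Option.elim]
      rw [h2 t ht, one_zpow, one_mul]
      exact h5
  obtain ⟨I', i1, M', hA', hO, hG'⟩ := exists_relabel M1 (G ^ N) _ hE1
  refine ⟨I', i1, M', hA', fun g hg => hO.bf g (hB1 g hg), hG', ?_, ?_⟩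
  · intro t ht
    refine hO.ld t _ ⟨(hθ t).1, ?_⟩
    rintro (_ | i)
    · change θ t (h t) / h t ∈ M.A t
      rw [h2 t ht, Derivation.map_one_eq_zero, zero_div]
      exact (M.A t).zero_mem
    · exact (hθ t).2 i
  · intro t ht
    have h3 := (hB t ht).2.1
    refine hO.ld t _ ⟨?_, ?_⟩
    · intro f hf
      rw [Derivation.smul_apply, smul_eq_mul]
      exact (M.A t).mul_mem h3 ((hθ t).1 f hf)
    · rintro (_ | i)
      · change ((G / μ t) • θ t) (h t) / h t ∈ M.A t
        rw [Derivation.smul_apply, smul_eq_mul, mul_div_assoc]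
        have e : G / μ t * (θ t (h t) / h t) = θ t (h t) := by
          rw [← h1 t ht]
          have := hne t
          field_simp
        rw [e]
        exact (hθ t).1 _ (hmem t)
      · change ((G / μ t) • θ t) (M.x t i) / M.x t i ∈ M.A t
        rw [Derivation.smul_apply, smul_eq_mul, mul_div_assoc]
        exact (M.A t).mul_mem h3 ((hθ t).2 i)

end add

end Pool.Agent.N98
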