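import Pool.Agent.H59.L.S8.W558.Add
import Pool.Agent.H59.L.S8.W558.WD.Stms

/-!
Boundary functions, chartwise logarithmic derivations, and principalization which preserves them.
-/

set_option autoImplicit false
set_option linter.unusedVariables false
set_option linter.unusedSimpArgs false
set_option linter.unusedSectionVars false

universe u

open Polynomial Pool.Agent.W558

namespace Pool.Agent.N98

section ism

variable {k K : Type u} [Field k] [Field K] [Algebra k K] {I : Type} [Fintype I]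

/-- `g` is a unit of `A` times a monomial in the `x i`. -/
def IsM (A : Subalgebra k K) (x : I → K) (g : K) (γ : I → ℤ) : Prop :=
  ∃ w, w ≠ 0 ∧ w ∈ A ∧ w⁻¹ ∈ A ∧ g = w * ∏ i, x i ^ γ i

variable {A : Subalgebra k K} {x : I → K} {g g' : K} {γ γ' : I → ℤ}

lemma IsM.ne (hx0 : ∀ i, x i ≠ 0) (h : IsM A x g γ) : g ≠ 0 := by
  obtain ⟨w, h0, -, -, h1⟩ := h
  rw [h1]
  exact mul_ne_zero h0 (Finset.prod_ne_zero_iff.2 fun i _ => zpow_ne_zero _ (hx0 i))

lemma IsM.one : IsM A x 1 0 := ⟨1, one_ne_zero, A.one_mem, by rw [inv_one]; exact A.one_mem,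
  by simp⟩

lemma IsM.mul (hx0 : ∀ i, x i ≠ 0) (h : IsM A x g γ) (h' : IsM A x g' γ') :
    IsM A x (g * g') (γ + γ') := by
  obtain ⟨w, h0, h1, h2, h3⟩ := h
  obtain ⟨w', h0', h1', h2', h3'⟩ := h'
  refine ⟨w * w', mul_ne_zero h0 h0', A.mul_mem h1 h1', ?_, ?_⟩
  · rw [mul_inv]
    exact A.mul_mem h2 h2'
  · have e : ∏ i, x i ^ (γ + γ') i = (∏ i, x i ^ γ i) * ∏ i, x i ^ γ' i := by
      rw [← Finset.prod_mul_distrib]
      exact Finset.prod_congr rfl fun i _ => zpow_add₀ (hx0 i) _ _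
    rw [e, h3, h3']
    ring

lemma IsM.inv (h : IsM A x g γ) : IsM A x g⁻¹ (-γ) := by
  obtain ⟨w, h0, h1, h2, h3⟩ := h
  refine ⟨w⁻¹, inv_ne_zero h0, h2, by rwa [inv_inv], ?_⟩
  rw [h3, mul_inv, ← Finset.prod_inv_distrib]
  congr 1
  refine Finset.prod_congr rfl fun i _ => ?_
  rw [Pi.neg_apply, zpow_neg]

lemma IsM.pow (hx0 : ∀ i, x i ≠ 0) (h : IsM A x g γ) (n : ℕ) : IsM A x (g ^ n) (n • γ) := by
  induction n with
  | zero => simpa using IsM.one (A := A) (x := x)
  | succ n ih =>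
    rw [pow_succ, succ_nsmul]
    exact ih.mul hx0 h

/-- Logarithmic derivations. -/
lemma IsM.logD (hxA : ∀ i, x i ∈ A) (hx0 : ∀ i, x i ≠ 0) (h : IsM A x g γ) (D : Derivation k K K)
    (hD : ∀ f ∈ A, D f ∈ A) (hDx : ∀ i, D (x i) / x i ∈ A) : D g / g ∈ A := by
  classical
  obtain ⟨w, h0, h1, h2, h3⟩ := h
  have key : ∀ s : Finset I, D (∏ i ∈ s, x i ^ γ i) / ∏ i ∈ s, x i ^ γ i ∈ A := by
    intro s
    induction s using Finset.induction_on with
    | empty => rw [Finset.prod_empty, Derivation.map_one_eq_zero, zero_div]; exact A.zero_mem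
    | insert i s hi ih =>
      rw [Finset.prod_insert hi]
      have hP : ∏ i ∈ s, x i ^ γ i ≠ 0 := Finset.prod_ne_zero_iff.2 fun i _ => zpow_ne_zero _ (hx0 i)
      have hQ : x i ^ γ i ≠ 0 := zpow_ne_zero _ (hx0 i)
      have e : D (x i ^ γ i * ∏ i ∈ s, x i ^ γ i) / (x i ^ γ i * ∏ i ∈ s, x i ^ γ i) =
          D (x i ^ γ i) / x i ^ γ i + D (∏ i ∈ s, x i ^ γ i) / ∏ i ∈ s, x i ^ γ i := by
        rw [Derivation.leibniz, smul_eq_mul, smul_eq_mul]
        field_simp
        ring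
      rw [e]
      refine A.add_mem ?_ ih
      have e2 : D (x i ^ γ i) / x i ^ γ i = (γ i : K) * (D (x i) / x i) := by
        rw [Derivation.leibniz_zpow, smul_eq_mul, zsmul_eq_mul, zpow_sub_one₀ (hx0 i)]
        have := hx0 i
        field_simp
      rw [e2]
      refine A.mul_mem ?_ (hDx i)
      have : ((γ i : ℤ) : K) = algebraMap k K (γ i) := by simp
      rw [this]
      exact A.algebraMap_mem _
  have hP : ∏ i, x i ^ γ i ≠ 0 := Finset.prod_ne_zero_iff.2 fun i _ => zpow_ne_zero _ (hx0 i)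
  have e : D g / g = D w * w⁻¹ + D (∏ i, x i ^ γ i) / ∏ i, x i ^ γ i := by
    rw [h3, Derivation.leibniz, smul_eq_mul, smul_eq_mul]
    field_simp
    ring
  rw [e]
  exact A.add_mem (A.mul_mem (hD _ h1) h2) (key _)

lemma logD_pow (D : Derivation k K K) {g : K} (hg : g ≠ 0) (N : ℕ) :
    D (g ^ N) / g ^ N = (N : K) * (D g / g) := by
  rcases N with _ | N
  · simp
  · rw [Derivation.leibniz_pow, smul_eq_mul, nsmul_eq_mul, Nat.add_sub_cancel, pow_succ]
    field_simp

lemma mem_of_natCast_mul {A : Subalgebra k K} {N : ℕ} (hN : (N : k) ≠ 0) {a : K}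
    (h : (N : K) * a ∈ A) : a ∈ A := by
  have hNK : (N : K) ≠ 0 := by
    have : (N : K) = algebraMap k K N := by simp
    rw [this]
    exact (_root_.map_ne_zero _).2 hN
  have e : a = algebraMap k K ((N : k)⁻¹) * ((N : K) * a) := by
    rw [map_inv₀, map_natCast, ← mul_assoc, inv_mul_cancel₀ hNK, one_mul]
  rw [e]
  exact A.mul_mem (A.algebraMap_mem _) h

end ism

section defs

variable {k K : Type u} [Field k] [Field K] [Algebra k K] {R0 R : Subalgebra k K} {T I : Type}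

/-- The derivation `D` is logarithmic on the chart `t`. -/
def LDt (M : LM R0 R T I) (t : T) (D : Derivation k K K) : Prop :=
  (∀ f ∈ M.A t, D f ∈ M.A t) ∧ ∀ i, D (M.x t i) / M.x t i ∈ M.A t

/-- `g` has its zeros and poles in the boundary. -/
def IsB [Fintype I] (M : LM R0 R T I) (g : K) : Prop :=
  ∃ γ : I → ℤ, ∀ t, IsM (M.A t) (M.x t) g γ

/-- A power of `g`, with exponent prime to the characteristic, has its zeros and poles in the
boundary. -/
def IsBr [Fintype I] (M : LM R0 R T I) (g : K) : Prop :=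
  ∃ N : ℕ, (N : k) ≠ 0 ∧ IsB M (g ^ N)

variable {T' I' : Type}

/-- The model `M'` lies over the model `M`, preserving boundary functions and logarithmic
derivations. -/
structure OvL [Fintype I] [Fintype I'] (M : LM R0 R T I) (M' : LM R0 R T' I')
    (π : T' → T) : Prop where
  le : ∀ t, M.A (π t) ≤ M'.A t
  bf : ∀ g, IsB M g → IsB M' g
  ld : ∀ t D, LDt M (π t) D → LDt M' t D

lemma OvL.refl [Fintype I] (M : LM R0 R T I) : OvL M M id :=
  ⟨fun _ => le_rfl, fun _ h => h, fun _ _ h => h⟩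

lemma OvL.trans [Fintype I] [Fintype I'] {T'' I'' : Type} [Fintype I''] {M : LM R0 R T I}
    {M' : LM R0 R T' I'} {M'' : LM R0 R T'' I''} {π : T' → T} {π' : T'' → T'}
    (h : OvL M M' π) (h' : OvL M' M'' π') : OvL M M'' (π ∘ π') :=
  ⟨fun t => (h.le _).trans (h'.le t), fun g hg => h'.bf g (h.bf g hg),
    fun t D hD => h'.ld t D (h.ld _ D hD)⟩

variable [Fintype I] {M : LM R0 R T I}

lemma IsB.ne {g : K} (h : IsB M g) : g ≠ 0 := by
  obtain ⟨γ, h⟩ := h
  obtain ⟨t⟩ := nonempty_T M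
  exact (h t).ne (M.x0 t)

lemma IsB.one : IsB M 1 := ⟨0, fun t => IsM.one⟩

lemma IsB.mul {g g' : K} (h : IsB M g) (h' : IsB M g') : IsB M (g * g') := by
  obtain ⟨γ, h⟩ := h
  obtain ⟨γ', h'⟩ := h'
  exact ⟨γ + γ', fun t => (h t).mul (M.x0 t) (h' t)⟩

lemma IsB.inv {g : K} (h : IsB M g) : IsB M g⁻¹ := by
  obtain ⟨γ, h⟩ := h
  exact ⟨-γ, fun t => (h t).inv⟩

lemma IsB.pow {g : K} (h : IsB M g) (n : ℕ) : IsB M (g ^ n) := by
  obtain ⟨γ, h⟩ := h
  exact ⟨n • γ, fun t => (h t).pow (M.x0 t) n⟩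

lemma IsB.div {g g' : K} (h : IsB M g) (h' : IsB M g') : IsB M (g / g') := by
  rw [div_eq_mul_inv]
  exact h.mul h'.inv

lemma IsB.br {g : K} (h : IsB M g) : IsBr M g :=
  ⟨1, by rw [Nat.cast_one]; exact one_ne_zero, by rwa [pow_one]⟩

lemma IsB.pow_of_dvd {g : K} {N N' : ℕ} (hN : N ∣ N') (h : IsB M (g ^ N)) : IsB M (g ^ N') := by
  obtain ⟨m, rfl⟩ := hN
  rw [pow_mul]
  exact h.pow m

lemma IsBr.ne {g : K} (h : IsBr M g) : g ≠ 0 := by
  obtain ⟨N, hN, h⟩ := h
  have := h.ne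
  intro h0
  apply this
  rw [h0, zero_pow]
  rintro rfl
  exact hN Nat.cast_zero

/-- A common exponent. -/
lemma exists_common {G : Type} [Finite G] {g : G → K} (h : ∀ a, IsBr M (g a)) :
    ∃ N : ℕ, (N : k) ≠ 0 ∧ ∀ a, IsB M (g a ^ N) := by
  classical
  have := Fintype.ofFinite G
  choose N hN hg using h
  refine ⟨∏ a, N a, ?_, fun a => (hg a).pow_of_dvd (Finset.dvd_prod_of_mem _ (Finset.mem_univ a))⟩
  rw [Nat.cast_prod]
  exact Finset.prod_ne_zero_iff.2 fun a _ => hN a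

lemma IsBr.mul {g g' : K} (h : IsBr M g) (h' : IsBr M g') : IsBr M (g * g') := by
  obtain ⟨N, hN, h⟩ := h
  obtain ⟨N', hN', h'⟩ := h'
  refine ⟨N * N', by rw [Nat.cast_mul]; exact mul_ne_zero hN hN', ?_⟩
  rw [mul_pow]
  exact (h.pow_of_dvd (dvd_mul_right _ _)).mul (h'.pow_of_dvd (dvd_mul_left _ _))

lemma IsBr.inv {g : K} (h : IsBr M g) : IsBr M g⁻¹ := by
  obtain ⟨N, hN, h⟩ := h
  refine ⟨N, hN, ?_⟩
  rw [inv_pow]
  exact h.inv

lemma IsBr.div {g g' : K} (h : IsBr M g) (h' : IsBr M g') : IsBr M (g / g') := by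
  rw [div_eq_mul_inv]
  exact h.mul h'.inv

lemma IsBr.pow {g : K} (h : IsBr M g) (n : ℕ) : IsBr M (g ^ n) := by
  obtain ⟨N, hN, h⟩ := h
  refine ⟨N, hN, ?_⟩
  rw [← pow_mul, mul_comm, pow_mul]
  exact h.pow n

/-- The logarithmic derivatives of boundary functions are regular. -/
lemma IsBr.logD {g : K} (h : IsBr M g) {t : T} {D : Derivation k K K} (hD : LDt M t D) :
    D g / g ∈ M.A t := by
  have h0 := h.ne
  obtain ⟨N, hN, γ, h⟩ := h
  have h1 := (h t).logD (M.xA t) (M.x0 t) D hD.1 hD.2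
  rw [logD_pow D h0] at h1
  exact mem_of_natCast_mul hN h1

lemma OvL.br {T' I' : Type} [Fintype I'] {M' : LM R0 R T' I'} {π : T' → T} (h : OvL M M' π)
    {g : K} (hg : IsBr M g) : IsBr M' g := by
  obtain ⟨N, hN, hg⟩ := hg
  exact ⟨N, hN, h.bf _ hg⟩

lemma OvL.frc {T' I' : Type} [Fintype I'] {M' : LM R0 R T' I'} {π : T' → T} (h : OvL M M' π)
    (hF : Frc M) : Frc M' := by
  intro t x
  obtain ⟨a, ha, b, hb, hb0, hx⟩ := hF (π t) x
  exact ⟨a, h.le t ha, b, h.le t hb, hb0, hx⟩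

end defs

section adj

variable {k K : Type u} [Field k] [Field K] [Algebra k K]

/-- Derivations extend to localizations. -/
lemma der_adj_inv {A : Subalgebra k K} {h : K} (hh : h ∈ A) (D : Derivation k K K)
    (hD : ∀ f ∈ A, D f ∈ A) : ∀ f ∈ adj A h⁻¹, D f ∈ adj A h⁻¹ := by
  intro f hf
  refine (adj_induction A h⁻¹ (p := fun f => f ∈ adj A h⁻¹ ∧ D f ∈ adj A h⁻¹) ?_ ?_ ?_ f hf).2
  · intro a ha
    exact ⟨le_adj _ _ ha, le_adj _ _ (hD _ ha)⟩
  · rintro a b ⟨ha, ha'⟩ ⟨hb, hb'⟩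
    exact ⟨(adj A h⁻¹).add_mem ha hb, by rw [map_add]; exact (adj A h⁻¹).add_mem ha' hb'⟩
  · rintro a ⟨ha, ha'⟩
    refine ⟨(adj A h⁻¹).mul_mem ha (self_mem_adj _ _), ?_⟩
    rw [Derivation.leibniz, smul_eq_mul, smul_eq_mul]
    refine (adj A h⁻¹).add_mem ((adj A h⁻¹).mul_mem ha ?_)
      ((adj A h⁻¹).mul_mem (self_mem_adj _ _) ha')
    rw [Derivation.leibniz_inv, smul_eq_mul]
    refine (adj A h⁻¹).mul_mem ((adj A h⁻¹).neg_mem ?_) (le_adj _ _ (hD _ hh))
    exact (adj A h⁻¹).pow_mem (self_mem_adj _ _) 2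

end adj

section ops

variable {k K : Type u} [Field k] [Field K] [Algebra k K] {R0 R : Subalgebra k K}
    {T I : Type} [Fintype I] (M : LM R0 R T I)

lemma ovl_blowup [DecidableEq I] {i j : I} (hij : i ≠ j) (M' : LM R0 R (T × Bool) (Option I))
    (hA : M'.A = bA M i j) (hx : M'.x = bX M i j) : OvL M M' Prod.fst where
  le := fun p => by rw [hA]; exact le_bA M i j p
  bf := by
    rintro g ⟨γ, h⟩
    refine ⟨bΓ i j γ, fun p => ?_⟩
    obtain ⟨w, hw0, hw, hw', hg⟩ := h p.1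
    rw [hA, hx]
    refine ⟨w, hw0, le_bA M i j p hw, le_bA M i j p hw', ?_⟩
    rw [hg, prod_bX M hij p]
  ld := by
    intro p D hD
    have hv : D (vv M i j p.1 p.2) / vv M i j p.1 p.2 ∈ M.A p.1 := by
      have h1 : D (vv M i j p.1 p.2) / vv M i j p.1 p.2 =
          D (M.x p.1 (nu i j p.2)) / M.x p.1 (nu i j p.2) -
          D (M.x p.1 (de i j p.2)) / M.x p.1 (de i j p.2) := by
        exact logD_div D (M.x0 p.1 (nu i j p.2)) (M.x0 p.1 (de i j p.2))
      rw [h1]
      exact (M.A p.1).sub_mem (hD.2 _) (hD.2 _)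
    constructor
    · rw [hA]
      intro f hf
      refine adj_induction (M.A p.1) (vv M i j p.1 p.2)
        (p := fun f => f ∈ bA M i j p ∧ D f ∈ bA M i j p) ?_ ?_ ?_ f hf |>.2
      · intro a ha
        exact ⟨le_bA M i j p ha, le_bA M i j p (hD.1 _ ha)⟩
      · rintro a b ⟨ha, ha'⟩ ⟨hb, hb'⟩
        exact ⟨(bA M i j p).add_mem ha hb, by rw [map_add]; exact (bA M i j p).add_mem ha' hb'⟩
      · rintro a ⟨ha, ha'⟩
        refine ⟨(bA M i j p).mul_mem ha (vv_mem M i j p), ?_⟩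
        rw [Derivation.leibniz, smul_eq_mul, smul_eq_mul]
        refine (bA M i j p).add_mem ((bA M i j p).mul_mem ha ?_)
          ((bA M i j p).mul_mem (vv_mem M i j p) ha')
        have h2 : D (vv M i j p.1 p.2) = D (vv M i j p.1 p.2) / vv M i j p.1 p.2 *
            vv M i j p.1 p.2 := by
          have : vv M i j p.1 p.2 ≠ 0 := div_ne_zero (M.x0 _ _) (M.x0 _ _)
          field_simp
        rw [h2]
        exact (bA M i j p).mul_mem (le_bA M i j p hv) (vv_mem M i j p)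
    · rw [hA, hx]
      rintro (_ | l)
      · exact le_bA M i j p (hD.2 _)
      · simp only [bX, bx]
        split_ifs
        · exact le_bA M i j p hv
        · rw [Derivation.map_one_eq_zero, zero_div]
          exact (bA M i j p).zero_mem
        · exact le_bA M i j p (hD.2 _)

lemma ovl_refine {J : Type} (h : T → J → K) (hmem : ∀ t b, h t b ∈ M.A t)
    (M' : LM R0 R (T × J) I) (hA : M'.A = rA M h) (hx : M'.x = fun p => M.x p.1) :
    OvL M M' Prod.fst where
  le := fun p => by rw [hA]; exact le_rA M h p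
  bf := by
    rintro g ⟨γ, hg⟩
    refine ⟨γ, fun p => ?_⟩
    obtain ⟨w, hw0, hw, hw', hg⟩ := hg p.1
    rw [hA, hx]
    exact ⟨w, hw0, le_rA M h p hw, le_rA M h p hw', hg⟩
  ld := by
    intro p D hD
    constructor
    · rw [hA]
      exact der_adj_inv (hmem _ _) D hD.1
    · rw [hA, hx]
      intro i
      exact le_rA M h p (hD.2 i)

/-- The relation used for principalization. -/
def OVD {G T' I' : Type} [Fintype I'] (M : LM R0 R T I) (Γ : G → I → ℤ)
    (M' : LM R0 R T' I') (Γ' : G → I' → ℤ) : Prop :=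
  (∃ π : T' → T, OvL M M' π) ∧ (∀ g : G → K, Fn M g Γ → Fn M' g Γ') ∧
    ∀ a b, Cmp M Γ a b → Cmp M' Γ' a b

variable {M}

lemma OVD.refl {G : Type} (M : LM R0 R T I) (Γ : G → I → ℤ) : OVD M Γ M Γ :=
  ⟨⟨id, OvL.refl M⟩, fun _ h => h, fun _ _ h => h⟩

lemma OVD.trans {G T' I' T'' I'' : Type} [Fintype I'] [Fintype I'']
    {Γ : G → I → ℤ} {M' : LM R0 R T' I'} {Γ' : G → I' → ℤ}
    {M'' : LM R0 R T'' I''} {Γ'' : G → I'' → ℤ}
    (h : OVD M Γ M' Γ') (h' : OVD M' Γ' M'' Γ'') : OVD M Γ M'' Γ'' := by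
  obtain ⟨⟨π, h1⟩, h2, h3⟩ := h
  obtain ⟨⟨π', h1'⟩, h2', h3'⟩ := h'
  exact ⟨⟨_, h1.trans h1'⟩, fun g hg => h2' g (h2 g hg), fun a b x => h3' a b (h3 a b x)⟩

end ops

section wt

variable {k K : Type u} [Field k] [Field K] [Algebra k K] {R0 R : Subalgebra k K}
    {T I : Type} {G : Type}

/-- If there are no bad pairs then the functions become comparable after a refinement. -/
lemma cmp_of_no_badD [Finite T] [Fintype I] [DecidableEq I] (a b : G)
    (M : LM R0 R T I) (Γ : G → I → ℤ) (h : ∀ p, ¬ Bad M (dc Γ a b) p) :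
    ∃ (T' I' : Type) (_ : Finite T') (_ : Fintype I') (_ : DecidableEq I')
      (M' : LM R0 R T' I') (Γ' : G → I' → ℤ), OVD M Γ M' Γ' ∧ Cmp M' Γ' a b := by
  classical
  let s : Bool → Finset I := fun e =>
    if e then Finset.univ.filter (fun l => dc Γ a b l < 0) else
      Finset.univ.filter (fun l => 0 < dc Γ a b l)
  let h' : T → Bool → K := fun t e => ∏ l ∈ s e, M.x t l
  have hmem : ∀ t e, h' t e ∈ M.A t := fun t e => (M.A t).prod_mem fun l _ => M.xA t l
  have hne : ∀ t e, h' t e ≠ 0 := fun t e => Finset.prod_ne_zero_iff.2 fun l _ => M.x0 t l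
  have hcop : ∀ t, ∃ α ∈ M.A t, ∃ β ∈ M.A t, α * h' t true + β * h' t false = 1 := by
    intro t
    have key : IsCoprime (∏ l ∈ s true, (⟨M.x t l, M.xA t l⟩ : M.A t))
        (∏ l ∈ s false, (⟨M.x t l, M.xA t l⟩ : M.A t)) := by
      refine IsCoprime.prod_left fun l hl => IsCoprime.prod_right fun m hm => ?_
      have hl' : dc Γ a b l < 0 := by simpa [s] using hl
      have hm' : 0 < dc Γ a b m := by simpa [s] using hm
      have h1 : Sep M m l := by
        by_contra h2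
        exact h (m, l) ⟨wt_pos.2 ⟨hm', hl'⟩, h2⟩
      obtain ⟨α, hα, β, hβ, h3⟩ := h1.symm t
      exact ⟨⟨α, hα⟩, ⟨β, hβ⟩, Subtype.ext h3⟩
    obtain ⟨α, β, hαβ⟩ := key
    refine ⟨α, α.2, β, β.2, ?_⟩
    have := congrArg (Subtype.val : M.A t → K) hαβ
    simpa [h'] using this
  obtain ⟨M', hA, hx, hH⟩ := exists_refine M h' hmem hne (by
    intro t V hV
    obtain ⟨α, hα, β, hβ, h1⟩ := hcop t
    have hV1 : h' t true ∈ V := hV _ (hmem _ _)
    have hV2 : h' t false ∈ V := hV _ (hmem _ _)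
    by_contra hcon
    push Not at hcon
    have h2 : ∀ e, V.valuation (h' t e) < 1 := by
      intro e
      have h3 : (h' t e)⁻¹ ∉ V := hcon e
      rw [← V.valuation_le_one_iff, map_inv₀, not_le] at h3
      have h4 : V.valuation (h' t e) ≠ 0 := by
        rw [ne_eq, map_eq_zero]; exact hne t e
      exact (one_lt_inv₀ (zero_lt_iff.2 h4)).1 h3
    have h5 : V.valuation (α * h' t true + β * h' t false) < 1 := by
      refine Valuation.map_add_lt _ ?_ ?_
      · rw [map_mul]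
        exact (mul_le_of_le_one_left' ((V.valuation_le_one_iff _).2 (hV _ hα))).trans_lt (h2 _)
      · rw [map_mul]
        exact (mul_le_of_le_one_left' ((V.valuation_le_one_iff _).2 (hV _ hβ))).trans_lt (h2 _)
    rw [h1, map_one] at h5
    exact lt_irrefl _ h5)
  refine ⟨T × Bool, I, inferInstance, inferInstance, inferInstance, M', Γ, ⟨?_, ?_, ?_⟩, ?_⟩
  · exact ⟨Prod.fst, ovl_refine M h' hmem M' hA hx⟩
  · intro g hg a p
    obtain ⟨w, hw0, hw, hw', h1⟩ := hg a p.1
    rw [hA, hx]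
    exact ⟨w, hw0, le_rA M h' p hw, le_rA M h' p hw', h1⟩
  · intro a b hh p
    rw [hA, hx]
    rcases hh p.1 with h1 | h1
    · left
      intro i
      exact (h1 i).imp_right fun h2 => le_rA M h' p h2
    · right
      intro i
      exact (h1 i).imp_right fun h2 => le_rA M h' p h2
  · rintro ⟨t, e⟩
    rw [hA, hx]
    have hu : ∀ l ∈ s e, (M.x t l)⁻¹ ∈ rA M h' (t, e) := by
      intro l hl
      have h1 : (M.x t l)⁻¹ = (∏ m ∈ (s e).erase l, M.x t m) * (h' t e)⁻¹ := by
        have h2 : h' t e = M.x t l * ∏ m ∈ (s e).erase l, M.x t m :=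
          (Finset.mul_prod_erase _ _ hl).symm
        rw [h2]
        have h3 := M.x0 t l
        have h4 : ∏ m ∈ (s e).erase l, M.x t m ≠ 0 :=
          Finset.prod_ne_zero_iff.2 fun l _ => M.x0 t l
        field_simp
      rw [h1]
      exact (rA M h' (t, e)).mul_mem
        (le_rA M h' (t, e) ((M.A t).prod_mem fun m _ => M.xA t m)) (inv_mem_rA M h' (t, e))
    cases e
    · -- the divisors with positive exponent are units
      left
      intro l
      by_cases hl : 0 < dc Γ a b l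
      · right
        exact hu l (by simpa [s] using hl)
      · left
        simp only [dc] at hl
        omega
    · right
      intro l
      by_cases hl : dc Γ a b l < 0
      · right
        exact hu l (by simpa [s] using hl)
      · left
        simp only [dc] at hl
        omega

theorem princ_auxD (a b : G) : ∀ (W n : ℕ) {T I : Type} [Finite T] [Fintype I]
    [DecidableEq I] (M : LM R0 R T I) (Γ : G → I → ℤ),
    (∀ p, Bad M (dc Γ a b) p → wt (dc Γ a b) p ≤ W) →
    {p | Bad M (dc Γ a b) p ∧ wt (dc Γ a b) p = W}.ncard ≤ n →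
    ∃ (T' I' : Type) (_ : Finite T') (_ : Fintype I') (_ : DecidableEq I')
      (M' : LM R0 R T' I') (Γ' : G → I' → ℤ), OVD M Γ M' Γ' ∧ Cmp M' Γ' a b := by
  intro W
  induction W with
  | zero =>
    intro n T I _ _ _ M Γ hW hn
    refine cmp_of_no_badD a b M Γ ?_
    intro p hp
    have := hW p hp
    have := hp.1
    omega
  | succ W ihW =>
    intro n
    induction n with
    | zero =>
      intro T I _ _ _ M Γ hW hn
      refine ihW _ M Γ ?_ le_rfl
      intro p hp
      have h1 := hW p hp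
      rcases h1.lt_or_eq with h2 | h2
      · omega
      · exfalso
        have h3 : {p | Bad M (dc Γ a b) p ∧ wt (dc Γ a b) p = W + 1} = ∅ := by
          rw [← Set.ncard_eq_zero (Set.toFinite _)]
          omega
        have h4 : p ∈ {p | Bad M (dc Γ a b) p ∧ wt (dc Γ a b) p = W + 1} := ⟨hp, h2⟩
        rw [h3] at h4
        exact h4
    | succ n ihn =>
      intro T I _ _ _ M Γ hW hn
      by_cases hex : ∃ p, Bad M (dc Γ a b) p ∧ wt (dc Γ a b) p = W + 1
      · obtain ⟨⟨i, j⟩, hb, hwt⟩ := hex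
        have hij : i ≠ j := by
          rintro rfl
          obtain ⟨h1, h2⟩ := wt_pos.1 hb.1
          simp only at h1 h2
          omega
        obtain ⟨M', hA, hx, hH⟩ := exists_blowup M hij
        obtain ⟨hd1, hd2⟩ := dc_blowup i j Γ a b
        have key := bad_blowup M hij M' hA hx _ _ hd1 hd2 (W + 1) hW hb
        obtain ⟨T'', I'', i1, i2, i3, M'', Γ'', hE, hC⟩ := ihn M' (fun a => bΓ i j (Γ a)) (by
          intro q hq
          rcases key q hq with h1 | ⟨l, l', h1, h2, h3, h4⟩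
          · exact h1.le
          · rw [← h3]
            exact hW _ h2) (by
          have h5 : {q | Bad M' (dc (fun a => bΓ i j (Γ a)) a b) q ∧
              wt (dc (fun a => bΓ i j (Γ a)) a b) q = W + 1} ⊆
              (fun q : I × I => (some q.1, some q.2)) ''
                ({p | Bad M (dc Γ a b) p ∧ wt (dc Γ a b) p = W + 1} \ {(i, j)}) := by
            rintro q ⟨hq, hq'⟩
            rcases key q hq with h1 | ⟨l, l', h1, h2, h3, h4⟩
            · omega
            · exact ⟨(l, l'), ⟨⟨h2, by rw [h3, hq']⟩, h4⟩, h1.symm⟩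
          have h6 := Set.ncard_le_ncard h5 (Set.toFinite _)
          have h7 := Set.ncard_image_le (f := fun q : I × I => (some q.1, some q.2))
            (s := {p | Bad M (dc Γ a b) p ∧ wt (dc Γ a b) p = W + 1} \ {(i, j)}) (Set.toFinite _)
          have h8 := Set.ncard_sdiff_singleton_lt_of_mem
            (s := {p | Bad M (dc Γ a b) p ∧ wt (dc Γ a b) p = W + 1}) (a := (i, j)) ⟨hb, hwt⟩
            (Set.toFinite _)
          omega)
        have hext := fun g : G → K => ext_blowup M hij g Γ M' hA hx hH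
        exact ⟨T'', I'', i1, i2, i3, M'', Γ'', OVD.trans ⟨⟨Prod.fst, ovl_blowup M hij M' hA hx⟩,
          fun g hg => (hext g).fn hg, (hext (fun _ => 1)).cmp⟩ hE, hC⟩
      · refine ihW _ M Γ ?_ le_rfl
        intro p hp
        have h1 := hW p hp
        rcases h1.lt_or_eq with h2 | h2
        · omega
        · exact absurd ⟨p, hp, h2⟩ hex

theorem princ_pairD (a b : G) [Finite T] [Fintype I] [DecidableEq I]
    (M : LM R0 R T I) (Γ : G → I → ℤ) :
    ∃ (T' I' : Type) (_ : Finite T') (_ : Fintype I') (_ : DecidableEq I')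
      (M' : LM R0 R T' I') (Γ' : G → I' → ℤ), OVD M Γ M' Γ' ∧ Cmp M' Γ' a b := by
  refine princ_auxD a b (Finset.univ.sup (wt (dc Γ a b))) _ M Γ ?_ le_rfl
  intro p _
  exact Finset.le_sup (Finset.mem_univ p)

/-- Principalization. -/
theorem princ_allD [Finite G] [Finite T] [Fintype I] [DecidableEq I]
    (M : LM R0 R T I) (Γ : G → I → ℤ) :
    ∃ (T' I' : Type) (_ : Finite T') (_ : Fintype I') (_ : DecidableEq I')
      (M' : LM R0 R T' I') (Γ' : G → I' → ℤ), OVD M Γ M' Γ' ∧ ∀ a b, Cmp M' Γ' a b := by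
  classical
  have : Fintype G := Fintype.ofFinite G
  have key : ∀ s : Finset (G × G), ∃ (T' I' : Type) (_ : Finite T') (_ : Fintype I')
      (_ : DecidableEq I') (M' : LM R0 R T' I') (Γ' : G → I' → ℤ), OVD M Γ M' Γ' ∧
        ∀ p ∈ s, Cmp M' Γ' p.1 p.2 := by
    intro s
    induction s using Finset.induction_on with
    | empty =>
      exact ⟨T, I, inferInstance, inferInstance, inferInstance, M, Γ, OVD.refl M Γ, by simp⟩
    | insert q s hq ih =>
      obtain ⟨T1, I1, i1, i2, i3, M1, Γ1, hE1, hC1⟩ := ih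
      obtain ⟨T2, I2, j1, j2, j3, M2, Γ2, hE2, hC2⟩ := princ_pairD q.1 q.2 M1 Γ1
      refine ⟨T2, I2, j1, j2, j3, M2, Γ2, hE1.trans hE2, ?_⟩
      intro p hp
      rcases Finset.mem_insert.1 hp with rfl | hp
      · exact hC2
      · exact hE2.2.2 _ _ (hC1 p hp)
  obtain ⟨T', I', i1, i2, i3, M', Γ', hE, hC⟩ := key Finset.univ
  exact ⟨T', I', i1, i2, i3, M', Γ', hE, fun a b => hC (a, b) (Finset.mem_univ _)⟩

/-- Principalization of a finite family of boundary functions. -/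
theorem exists_princ [Finite G] [Finite T] [Fintype I] (M : LM R0 R T I) (g : G → K)
    (hg : ∀ a, IsB M (g a)) :
    ∃ (T' I' : Type) (_ : Finite T') (_ : Fintype I') (M' : LM R0 R T' I') (π : T' → T),
      OvL M M' π ∧ ∀ t a b, g b / g a ∈ M'.A t ∨ g a / g b ∈ M'.A t := by
  classical
  choose Γ hΓ using hg
  have hF : Fn M g Γ := fun a t => hΓ a t
  obtain ⟨T', I', i1, i2, i3, M', Γ', ⟨⟨π, hπ⟩, hE, -⟩, hC⟩ := princ_allD M Γ
  have hF' := hE g hF
  refine ⟨T', I', i1, i2, M', π, hπ, fun t a b => ?_⟩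
  rcases hC a b t with h | h
  · exact Or.inl (div_mem_of_le M' t g Γ' hF' h)
  · exact Or.inr (div_mem_of_le M' t g Γ' hF' h)

end wt

end Pool.Agent.N98
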