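import Pool.Agent.H59.L.T374d34.N98.Val

/-!
The dichotomy in a normal local ring.
-/

set_option autoImplicit false
set_option linter.unusedVariables false

universe u

open Polynomial

namespace Pool.Agent.N98

section dom

variable {K : Type*} [Field K] {R : LocalSubring K} {V : ValuationSubring K}

lemma val_le_iff_div_mem (V : ValuationSubring K) {a b : K} (hb : b ≠ 0) :
    V.valuation a ≤ V.valuation b ↔ a / b ∈ V := by
  rw [← V.valuation_le_one_iff, map_div₀, div_le_one₀]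
  rw [zero_lt_iff, ne_eq, map_eq_zero]
  exact hb

lemma val_le_of_mem (h : R ≤ V.toLocalSubring) {a b : K} (hb : b ≠ 0)
    (hab : a / b ∈ R.toSubring) : V.valuation a ≤ V.valuation b :=
  (val_le_iff_div_mem V hb).2 (h.1 hab)

lemma inv_mem_of_val (h : R ≤ V.toLocalSubring) {a : K} (ha : a ∈ R.toSubring)
    (hv : V.valuation a = 1) : a⁻¹ ∈ R.toSubring := by
  have h1 : IsUnit (⟨a, h.1 ha⟩ : V) := (V.valuation_eq_one_iff _).2 hv
  obtain ⟨h0, hl⟩ := h
  have h2 : IsUnit (Subring.inclusion h0 ⟨a, ha⟩) := h1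
  have h3 : IsUnit (⟨a, ha⟩ : R.toSubring) := hl.1 _ h2
  obtain ⟨b, hb⟩ := h3.exists_right_inv
  have h4 : a * b = 1 := congrArg Subtype.val hb
  rw [← eq_inv_of_mul_eq_one_right h4]
  exact b.2

lemma mem_of_val_le (h : R ≤ V.toLocalSubring) {a b : K} (ha : a ≠ 0) (hb : b ≠ 0)
    (hc : a / b ∈ R.toSubring ∨ b / a ∈ R.toSubring) (hv : V.valuation a ≤ V.valuation b) :
    a / b ∈ R.toSubring := by
  rcases hc with hc | hc
  · exact hc
  · have h1 := val_le_of_mem h ha hc
    have h2 : V.valuation (b / a) = 1 := by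
      rw [map_div₀, le_antisymm h1 hv, div_self]
      rw [ne_eq, map_eq_zero]
      exact ha
    have h3 := inv_mem_of_val h hc h2
    rwa [inv_div] at h3

/-- The dichotomy. -/
theorem dich [IsIntegrallyClosedIn R.toSubring K] {ι : Type} [Finite ι] (m : ι → K)
    (hm : ∀ i, m i ≠ 0) (g μ : K) (N : ℕ) (hμ : μ ≠ 0)
    (hc : ∀ i j, m i / m j ∈ R.toSubring ∨ m j / m i ∈ R.toSubring)
    (hcμ : ∀ i, μ ^ N / m i ∈ R.toSubring ∨ m i / μ ^ N ∈ R.toSubring)
    (H : ∀ V : ValuationSubring K, R ≤ V.toLocalSubring → V.valuation g ≤ V.valuation μ ∨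
      ∃ i, V.valuation (g ^ N) = V.valuation (m i) ∧ V.valuation (μ ^ N) < V.valuation (m i)) :
    (∃ i, g ^ N / m i ∈ R.toSubring ∧ m i / g ^ N ∈ R.toSubring) ∨ g / μ ∈ R.toSubring := by
  classical
  have : Fintype ι := Fintype.ofFinite ι
  by_cases hB : g / μ ∈ R.toSubring
  · exact Or.inr hB
  left
  obtain ⟨V0, hV0, hgV0⟩ := LocalSubring.exists_le_valuationSubring_of_isIntegrallyClosedIn hB
  have hμN : μ ^ N ≠ 0 := pow_ne_zero _ hμ
  let S : Finset ι := Finset.univ.filter fun i => ∃ V : ValuationSubring K,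
    R ≤ V.toLocalSubring ∧ V.valuation (g ^ N) = V.valuation (m i) ∧
      V.valuation (μ ^ N) < V.valuation (m i)
  have hS : ∀ i, i ∈ S ↔ ∃ V : ValuationSubring K,
    R ≤ V.toLocalSubring ∧ V.valuation (g ^ N) = V.valuation (m i) ∧
      V.valuation (μ ^ N) < V.valuation (m i) := fun i => by simp [S]
  have hne : S.Nonempty := by
    rcases H V0 hV0 with h | ⟨i, hi, hi'⟩
    · exact absurd ((val_le_iff_div_mem V0 hμ).1 h) hgV0
    · exact ⟨i, (hS i).2 ⟨V0, hV0, hi, hi'⟩⟩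
  obtain ⟨i, hi, hmax⟩ := Finset.exists_max_image S (fun i => V0.valuation (m i)) hne
  obtain ⟨V1, hV1, h1, h2⟩ := (hS i).1 hi
  -- `m i` divides `μ ^ N` and all `m j`, `j ∈ S`
  have h3 : μ ^ N / m i ∈ R.toSubring := mem_of_val_le hV1 hμN (hm i) (hcμ i) h2.le
  have h4 : ∀ j ∈ S, m j / m i ∈ R.toSubring := fun j hj =>
    mem_of_val_le hV0 (hm j) (hm i) (hc j i) (hmax j hj)
  have h5 : g ^ N / m i ∈ R.toSubring := by
    by_contra hcon
    obtain ⟨V, hV, hgV⟩ := LocalSubring.exists_le_valuationSubring_of_isIntegrallyClosedIn hcon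
    have h6 : V.valuation (m i) < V.valuation (g ^ N) := by
      rw [← not_le]
      exact fun h => hgV ((val_le_iff_div_mem V (hm i)).1 h)
    rcases H V hV with h | ⟨j, hj, hj'⟩
    · have h7 : V.valuation (g ^ N) ≤ V.valuation (μ ^ N) := by
        rw [map_pow, map_pow]
        exact pow_le_pow_left' h N
      exact absurd (h7.trans (val_le_of_mem hV (hm i) h3)) (not_le.2 h6)
    · have h7 := val_le_of_mem hV (hm i) (h4 j ((hS j).2 ⟨V, hV, hj, hj'⟩))
      rw [← hj] at h7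
      exact absurd h7 (not_le.2 h6)
  refine ⟨i, h5, ?_⟩
  have h6 : V1.valuation (g ^ N / m i) = 1 := by
    rw [map_div₀, h1, div_self]
    rw [ne_eq, map_eq_zero]
    exact hm i
  have h7 := inv_mem_of_val hV1 h5 h6
  rwa [inv_div] at h7

/-- Extension of valuations. -/
lemma exists_ext (V : ValuationSubring K) (F : Type*) [Field F] [Algebra K F] :
    ∃ V' : ValuationSubring F, ∀ a b : K, V'.valuation (algebraMap K F a) ≤
      V'.valuation (algebraMap K F b) ↔ V.valuation a ≤ V.valuation b := by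
  obtain ⟨V', h, hl⟩ := IsLocalRing.exists_factor_valuationRing
    ((algebraMap K F).comp V.subtype)
  refine ⟨V', fun a b => ?_⟩
  by_cases hb : b = 0
  · rw [hb, map_zero, map_zero, map_zero, le_zero_iff, le_zero_iff, map_eq_zero, map_eq_zero,
      map_eq_zero]
  have hb' : algebraMap K F b ≠ 0 := (_root_.map_ne_zero _).2 hb
  rw [val_le_iff_div_mem V hb, val_le_iff_div_mem V' hb', ← map_div₀]
  constructor
  · intro h1
    by_contra h2
    have h3 : (a / b)⁻¹ ∈ V := (V.mem_or_inv_mem _).resolve_left h2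
    have h4 : a / b ≠ 0 := fun h0 => h2 (by rw [h0]; exact V.zero_mem)
    have h5 : IsUnit ((((algebraMap K F).comp V.subtype).codRestrict V'.toSubring h)
        ⟨(a / b)⁻¹, h3⟩) := by
      refine IsUnit.of_mul_eq_one ⟨algebraMap K F (a / b), h1⟩ (Subtype.ext ?_)
      change algebraMap K F (a / b)⁻¹ * algebraMap K F (a / b) = 1
      rw [← map_mul, inv_mul_cancel₀ h4, map_one]
    have h6 := hl.1 _ h5
    obtain ⟨c, hc⟩ := h6.exists_right_inv
    have h7 : (a / b)⁻¹ * c = 1 := congrArg Subtype.val hc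
    have h8 : (c : K) = a / b := by
      rw [eq_inv_of_mul_eq_one_right h7, inv_inv]
    exact h2 (h8 ▸ c.2)
  · intro h1
    exact h ⟨a / b, h1⟩

lemma hasseDeriv_map' {A B : Type*} [CommRing A] [CommRing B] (f : A →+* B) (P : A[X]) (j : ℕ) :
    hasseDeriv j (P.map f) = (hasseDeriv j P).map f := by
  ext n
  rw [hasseDeriv_coeff, coeff_map, coeff_map, hasseDeriv_coeff, map_mul, map_natCast]

/-- The dichotomy for the values of polynomials. -/
theorem dich_poly [IsIntegrallyClosedIn R.toSubring K] {ι : Type} [Finite ι] (m : ι → K)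
    (hm : ∀ i, m i ≠ 0) (L G Q : K[X]) (x φ μ : K) (N : ℕ) (hN0 : N ≠ 0) (hμ : μ ≠ 0)
    (hc : ∀ i j, m i / m j ∈ R.toSubring ∨ m j / m i ∈ R.toSubring)
    (hcμ : ∀ i, μ ^ N / m i ∈ R.toSubring ∨ m i / μ ^ N ∈ R.toSubring)
    (hx : L.eval x ≠ 0) (hφ : φ * L.derivative.eval x = L.eval x)
    (hμj : ∀ j, 1 ≤ j → φ ^ j * (hasseDeriv j G).eval x / μ ∈ R.toSubring)
    (hQ : Q ≠ 0) (hLQ : L ∣ Q.comp G)
    (hN : ∀ a b, a < b → b ≤ Q.natDegree → b - a ∣ N)
    (hmQ : ∀ a b, a < b → b ≤ Q.natDegree → Q.coeff a ≠ 0 → Q.coeff b ≠ 0 →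
      ∃ i, m i = (Q.coeff a / Q.coeff b) ^ (N / (b - a))) :
    (∃ i, G.eval x ^ N / m i ∈ R.toSubring ∧ m i / G.eval x ^ N ∈ R.toSubring) ∨
      G.eval x / μ ∈ R.toSubring := by
  refine dich m hm _ μ N hμ hc hcμ ?_
  intro V hV
  let F := AlgebraicClosure K
  let ι' := algebraMap K F
  obtain ⟨V', hV'⟩ := exists_ext V F
  have hev : ∀ P : K[X], (P.map ι').eval (ι' x) = ι' (P.eval x) := fun P => by
    rw [eval_map_apply]
  have hQ' : Q.map ι' ≠ 0 := (Polynomial.map_ne_zero_iff ι'.injective).2 hQ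
  have h1 := val_dich V' (L := L.map ι') (G := G.map ι') (Q := Q.map ι')
    (IsAlgClosed.splits _) (x := ι' x) (φ := ι' φ) (μ := ι' μ)
    (by rw [hev]; exact (_root_.map_ne_zero _).2 hx)
    (by rw [derivative_map, hev, hev, ← map_mul, hφ])
    (by
      intro j hj
      rw [hasseDeriv_map', hev, ← map_pow, ← map_mul, hV']
      exact val_le_of_mem hV hμ (hμj j hj))
    hQ' (by
      rw [← Polynomial.map_comp]
      exact Polynomial.map_dvd _ hLQ) N hN0 (by
      intro a b hab hb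
      rw [natDegree_map] at hb
      exact hN a b hab hb)
  rcases h1 with h1 | ⟨a, b, hab, hb, ha0, hb0, h1, h2⟩
  · left
    rw [hev, hV'] at h1
    exact h1
  · right
    rw [natDegree_map] at hb
    rw [coeff_map] at ha0 hb0
    have ha0' : Q.coeff a ≠ 0 := fun h => ha0 (by rw [h, map_zero])
    have hb0' : Q.coeff b ≠ 0 := fun h => hb0 (by rw [h, map_zero])
    obtain ⟨i, hi⟩ := hmQ a b hab hb ha0' hb0'
    refine ⟨i, ?_, ?_⟩
    · rw [hi]
      rw [hev, coeff_map, coeff_map, ← map_div₀, ← map_pow, ← map_pow] at h1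
      exact le_antisymm ((hV' _ _).1 h1.le) ((hV' _ _).1 h1.ge)
    · rw [hi]
      rw [coeff_map, coeff_map, ← map_div₀, ← map_pow, ← map_pow, ← not_le, hV', not_le] at h2
      exact h2

end dom

end Pool.Agent.N98
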